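import Mathlib
import Pool.Agent.Helper38.Fom.Defs
import Pool.Agent.Helper38.Fom.Main

set_option autoImplicit false

namespace Pool.Agent.Results.MP_db5b97_nt.UniformBound

open Pool.Agent.Helper38.Fom

/-- **Q1, positive answer for every `N`.** The supremum over all `d ≥ 2` of `FOM/FOD(N, d)` is
finite. (The second part records that the field of moduli is contained in every field of
definition, so that `Subfield.relrank (fieldOfModuli F) L` is the degree `[L : K_F]`.) -/
theorem result (N : ℕ) :
    (⨆ (d : ℕ) (_ : 2 ≤ d), fomFod N d) < ⊤ ∧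
      ∀ (F : Tuple (AlgebraicClosure ℚ) (N + 1)) (L : Subfield (AlgebraicClosure ℚ)),
        IsFieldOfDefinition F L → fieldOfModuli F ≤ L := by
  have halg : Algebra.IsAlgebraic ℚ (AlgebraicClosure ℚ) := AlgebraicClosure.isAlgebraic ℚ
  have hgal : IsGalois ℚ (AlgebraicClosure ℚ) :=
    { to_isSeparable := inferInstance
      to_normal := normal_iff.mpr fun x =>
        ⟨Algebra.IsIntegral.isIntegral x, IsAlgClosed.splits _⟩ }
  constructor
  · obtain ⟨D, hD⟩ := uniform_bound (N + 1)
    refine lt_of_le_of_lt (iSup₂_le fun d hd => ?_) (ENat.natCast_lt_top D)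
    refine iSup₂_le fun F hF => ?_
    obtain ⟨L, hL, -, hdeg⟩ := hD (AlgebraicClosure ℚ) d hd F hF
    exact iInf₂_le_of_le L hL (Cardinal.toENat_le_natCast.mpr hdeg)
  · intro F L h
    exact fieldOfModuli_le h

end Pool.Agent.Results.MP_db5b97_nt.UniformBound
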